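import Mathlib

/-!
# Primitive perfect cuboids: the factorisations `n ^ 2 = s t`, `s - t = 2 x` at the prime factors
which divide `n` exactly once
-/

namespace Pool.Agent.CubS

/-- `n, x, y` are the edges of a primitive perfect cuboid. -/
def PrimCuboid (n x y : ℕ) : Prop :=
  0 < n ∧ 0 < x ∧ 0 < y ∧ Nat.gcd (Nat.gcd n x) y = 1 ∧ IsSquare (n ^ 2 + x ^ 2) ∧
    IsSquare (n ^ 2 + y ^ 2) ∧ IsSquare (x ^ 2 + y ^ 2) ∧ IsSquare (n ^ 2 + x ^ 2 + y ^ 2)

theorem exists_st {n x : ℕ} (hn : 0 < n) (h : IsSquare (n ^ 2 + x ^ 2)) :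
    ∃ s t : ℕ, 0 < t ∧ s * t = n ^ 2 ∧ s = t + 2 * x := by
  obtain ⟨a, ha⟩ := h
  have hxa : x < a := by
    by_contra hc
    have : a * a ≤ x * x := Nat.mul_le_mul (by omega) (by omega)
    have : 0 < n ^ 2 := by positivity
    nlinarith
  obtain ⟨t, rfl⟩ : ∃ t, a = x + t := ⟨a - x, by omega⟩
  refine ⟨t + 2 * x, t, by omega, ?_, rfl⟩
  nlinarith

/-- `p` divides `n` exactly once. -/
theorem val_add {n s t p : ℕ} (hn : 0 < n) (hst : s * t = n ^ 2) (hp : n.factorization p = 1) :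
    s.factorization p + t.factorization p = 2 := by
  have h0 : s * t ≠ 0 := by rw [hst]; positivity
  have hs : s ≠ 0 := left_ne_zero_of_mul h0
  have ht : t ≠ 0 := right_ne_zero_of_mul h0
  have h1 : (s * t).factorization p = (n ^ 2).factorization p := by rw [hst]
  rw [Nat.factorization_mul hs ht, Nat.factorization_pow] at h1
  simpa [hp] using h1

/-- If `s` (hence `t`) is divisible by `p` exactly once then `p ∣ x`. -/
theorem dvd_of_val_one {n s t x p : ℕ} (hn : 0 < n) (hp : p.Prime) (hst : s * t = n ^ 2)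
    (hsx : s = t + 2 * x) (hpn : n.factorization p = 1) (hs1 : s.factorization p = 1) : p ∣ x := by
  have h0 : s * t ≠ 0 := by rw [hst]; positivity
  have hs : s ≠ 0 := left_ne_zero_of_mul h0
  have ht : t ≠ 0 := right_ne_zero_of_mul h0
  have ht1 : t.factorization p = 1 := by
    have := val_add hn hst hpn
    omega
  have hps : p ∣ s := (hp.dvd_iff_one_le_factorization hs).2 (by omega)
  have hpt : p ∣ t := (hp.dvd_iff_one_le_factorization ht).2 (by omega)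
  have hps2 : ¬ p ^ 2 ∣ s := fun h => by
    have := (hp.pow_dvd_iff_le_factorization hs).1 h
    omega
  have hpt2 : ¬ p ^ 2 ∣ t := fun h => by
    have := (hp.pow_dvd_iff_le_factorization ht).1 h
    omega
  have h2 : p ∣ 2 * x := by
    have : p ∣ t + 2 * x := hsx ▸ hps
    exact (Nat.dvd_add_right hpt).1 this
  rcases (Nat.Prime.dvd_mul hp).1 h2 with h | h
  · have hp2 : p = 2 := (Nat.prime_dvd_prime_iff_eq hp Nat.prime_two).1 h
    subst hp2
    obtain ⟨a, rfl⟩ := hps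
    obtain ⟨b, rfl⟩ := hpt
    have hxa : a = b + x := by omega
    have ha : ¬ 2 ∣ a := fun hh => hps2 (by rw [pow_two]; exact Nat.mul_dvd_mul_left 2 hh)
    have hb : ¬ 2 ∣ b := fun hh => hpt2 (by rw [pow_two]; exact Nat.mul_dvd_mul_left 2 hh)
    omega
  · exact h

/-- The set of admissible patterns. -/
def V : Finset (ℕ × ℕ × ℕ) :=
  (Finset.range 3 ×ˢ Finset.range 3 ×ˢ Finset.range 3).filter (fun v =>
    ¬ (v.1 = 1 ∧ v.2.1 = 1) ∧ ¬ (v.1 = 1 ∧ v.2.2 = 1) ∧ ¬ (v.2.1 = 1 ∧ v.2.2 = 1))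

theorem card_V : V.card = 20 := by decide

theorem V_nonempty : V.Nonempty := by rw [← Finset.card_pos, card_V]; norm_num

/-- The complementary pattern. -/
def comp (v : ℕ × ℕ × ℕ) : ℕ × ℕ × ℕ := (2 - v.1, 2 - v.2.1, 2 - v.2.2)

theorem comp_mem : ∀ v ∈ V, comp v ∈ V := by decide

theorem comp_comp : ∀ v ∈ V, comp (comp v) = v := by decide

theorem comp_ne : ∀ v ∈ V, comp v ≠ v := by decide

/-- The data of a primitive perfect cuboid. -/
theorem exists_factors {n x y : ℕ} (h : PrimCuboid n x y) :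
    ∃ s₁ t₁ s₂ t₂ s₃ t₃ z : ℕ, 0 < z ∧ z ^ 2 = x ^ 2 + y ^ 2 ∧
      (s₁ * t₁ = n ^ 2 ∧ s₁ = t₁ + 2 * x) ∧ (s₂ * t₂ = n ^ 2 ∧ s₂ = t₂ + 2 * y) ∧
      (s₃ * t₃ = n ^ 2 ∧ s₃ = t₃ + 2 * z) ∧
      ∀ p : ℕ, p.Prime → n.factorization p = 1 →
        (s₁.factorization p, s₂.factorization p, s₃.factorization p) ∈ V := by
  obtain ⟨hn, hx, hy, hg, hnx, hny, hxy, hnxy⟩ := h
  obtain ⟨z, hz⟩ := hxy
  have hz0 : 0 < z := by
    rcases Nat.eq_zero_or_pos z with rfl | h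
    · have : 0 < x ^ 2 := by positivity
      omega
    · exact h
  have hz2 : z ^ 2 = x ^ 2 + y ^ 2 := by rw [hz, pow_two]
  have hnz : IsSquare (n ^ 2 + z ^ 2) := by rw [hz2, ← add_assoc]; exact hnxy
  obtain ⟨s₁, t₁, ht₁, hs₁, hsx₁⟩ := exists_st hn hnx
  obtain ⟨s₂, t₂, ht₂, hs₂, hsx₂⟩ := exists_st hn hny
  obtain ⟨s₃, t₃, ht₃, hs₃, hsx₃⟩ := exists_st hn hnz
  refine ⟨s₁, t₁, s₂, t₂, s₃, t₃, z, hz0, hz2, ⟨hs₁, hsx₁⟩, ⟨hs₂, hsx₂⟩, ⟨hs₃, hsx₃⟩, ?_⟩
  intro p hp hpn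
  have hpn' : p ∣ n := (hp.dvd_iff_one_le_factorization hn.ne').2 (by omega)
  have hnot : ¬ (p ∣ x ∧ p ∣ y) := by
    rintro ⟨h1, h2⟩
    have : p ∣ 1 := hg ▸ Nat.dvd_gcd (Nat.dvd_gcd hpn' h1) h2
    exact hp.one_lt.ne' (Nat.dvd_one.1 this)
  have e1 := val_add hn hs₁ hpn
  have e2 := val_add hn hs₂ hpn
  have e3 := val_add hn hs₃ hpn
  have f1 : s₁.factorization p = 1 → p ∣ x := dvd_of_val_one hn hp hs₁ hsx₁ hpn
  have f2 : s₂.factorization p = 1 → p ∣ y := dvd_of_val_one hn hp hs₂ hsx₂ hpn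
  have f3 : s₃.factorization p = 1 → p ∣ z := dvd_of_val_one hn hp hs₃ hsx₃ hpn
  simp only [V, Finset.mem_filter, Finset.mem_product, Finset.mem_range]
  refine ⟨⟨by omega, by omega, by omega⟩, ?_, ?_, ?_⟩
  · rintro ⟨h1, h2⟩
    exact hnot ⟨f1 h1, f2 h2⟩
  · rintro ⟨h1, h2⟩
    have hx' := f1 h1
    have hz' := f3 h2
    have : p ∣ y ^ 2 := by
      have h3 : p ∣ x ^ 2 + y ^ 2 := hz2 ▸ dvd_pow hz' (by norm_num)
      exact (Nat.dvd_add_right (dvd_pow hx' (by norm_num))).1 h3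
    exact hnot ⟨hx', hp.dvd_of_dvd_pow this⟩
  · rintro ⟨h1, h2⟩
    have hy' := f2 h1
    have hz' := f3 h2
    have : p ∣ x ^ 2 := by
      have h3 : p ∣ x ^ 2 + y ^ 2 := hz2 ▸ dvd_pow hz' (by norm_num)
      exact (Nat.dvd_add_left (dvd_pow hy' (by norm_num))).1 h3
    exact hnot ⟨hp.dvd_of_dvd_pow this, hy'⟩

theorem pow_dvd_of_forall {k s a : ℕ} (hs : s ≠ 0) (hk : Squarefree k)
    (h : ∀ p : ℕ, p.Prime → p ∣ k → p ^ a ∣ s) : k ^ a ∣ s := by
  have hk0 : k ≠ 0 := hk.ne_zero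
  rw [← Nat.factorization_prime_le_iff_dvd (pow_ne_zero _ hk0) hs]
  intro p hp
  rw [Nat.factorization_pow]
  simp only [Finsupp.smul_apply, smul_eq_mul]
  by_cases hpk : p ∣ k
  · have h1 := (hp.pow_dvd_iff_le_factorization hs).1 (h p hp hpk)
    have h2 := hk.natFactorization_le_one p
    nlinarith
  · rw [Nat.factorization_eq_zero_of_not_dvd hpk]
    omega

/-- The shape of a factorisation `n ^ 2 = s t` at a squarefree factor with a constant pattern. -/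
theorem shape {n s t m k l a : ℕ} (hn : 0 < n) (hst : s * t = n ^ 2) (hm : n = m * (k * l))
    (ha : a ≤ 2) (hk : Squarefree k) (hl : Squarefree l) (hkl : Nat.Coprime k l)
    (hvk : ∀ p : ℕ, p.Prime → p ∣ k → n.factorization p = 1 ∧ s.factorization p = a)
    (hvl : ∀ p : ℕ, p.Prime → p ∣ l → n.factorization p = 1 ∧ s.factorization p = 2 - a) :
    ∃ d e : ℕ, d * e = m ^ 2 ∧ s = d * (k ^ a * l ^ (2 - a)) ∧
      t = e * (k ^ (2 - a) * l ^ a) := by
  have h0 : s * t ≠ 0 := by rw [hst]; positivity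
  have hs : s ≠ 0 := left_ne_zero_of_mul h0
  have ht : t ≠ 0 := right_ne_zero_of_mul h0
  have key : ∀ {k l : ℕ}, Squarefree k → Squarefree l → Nat.Coprime k l → ∀ {s b c : ℕ}, s ≠ 0 →
      (∀ p : ℕ, p.Prime → p ∣ k → s.factorization p = b) →
      (∀ p : ℕ, p.Prime → p ∣ l → s.factorization p = c) → k ^ b * l ^ c ∣ s := by
    intro k l hk hl hkl s b c hs h1 h2
    refine Nat.Coprime.mul_dvd_of_dvd_of_dvd (Nat.Coprime.pow _ _ hkl) ?_ ?_
    · exact pow_dvd_of_forall hs hk fun p hp hpk =>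
        (hp.pow_dvd_iff_le_factorization hs).2 (h1 p hp hpk).ge
    · exact pow_dvd_of_forall hs hl fun p hp hpk =>
        (hp.pow_dvd_iff_le_factorization hs).2 (h2 p hp hpk).ge
  obtain ⟨d, hd⟩ := key hk hl hkl hs (fun p hp h => (hvk p hp h).2) (fun p hp h => (hvl p hp h).2)
  obtain ⟨e, he⟩ : k ^ (2 - a) * l ^ a ∣ t := by
    refine key hk hl hkl ht (fun p hp h => ?_) (fun p hp h => ?_)
    · have h1 := hvk p hp h
      have h2 := val_add hn hst h1.1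
      omega
    · have h1 := hvl p hp h
      have h2 := val_add hn hst h1.1
      omega
  refine ⟨d, e, ?_, by rw [hd]; ring, by rw [he]; ring⟩
  have hk0 : 0 < k := Nat.pos_of_ne_zero hk.ne_zero
  have hl0 : 0 < l := Nat.pos_of_ne_zero hl.ne_zero
  have h1 : (k ^ a * k ^ (2 - a)) * (l ^ a * l ^ (2 - a)) = k ^ 2 * l ^ 2 := by
    rw [← pow_add, ← pow_add, show a + (2 - a) = 2 by omega]
  have h2 : (d * e) * (k ^ 2 * l ^ 2) = m ^ 2 * (k ^ 2 * l ^ 2) := by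
    have h3 : s * t = (d * e) * ((k ^ a * k ^ (2 - a)) * (l ^ a * l ^ (2 - a))) := by
      rw [hd, he]; ring
    rw [h1, hst, hm] at h3
    rw [← h3]; ring
  exact Nat.eq_of_mul_eq_mul_right (by positivity) h2

end Pool.Agent.CubS
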