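import Mathlib
import Pool.Agent.CubS.Basic

/-!
# Primitive perfect cuboids: at most two for given data

For a pattern `v ∈ V`, numbers `m`, `d₁, d₂, d₃` (divisors of `m ^ 2`) there are at most two coprime
pairs `(k, l)` which give a cuboid.
-/

namespace Pool.Agent.CubS

/-- `s - t` for `s = d k^a l^(2-a)`, `t = e k^(2-a) l^a`. -/
def df (a d e k l : ℕ) : ℤ :=
  (d : ℤ) * ((k : ℤ) ^ a * (l : ℤ) ^ (2 - a)) - (e : ℤ) * ((k : ℤ) ^ (2 - a) * (l : ℤ) ^ a)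

def al (a d e : ℕ) : ℤ := if a = 2 then (d : ℤ) ^ 2 else if a = 0 then (e : ℤ) ^ 2 else 0
def be (a d e : ℕ) : ℤ := if a = 1 then ((d : ℤ) - e) ^ 2 else -2 * ((d : ℤ) * e)
def ga (a d e : ℕ) : ℤ := if a = 2 then (e : ℤ) ^ 2 else if a = 0 then (d : ℤ) ^ 2 else 0

theorem df_sq {a d e k l : ℕ} (ha : a < 3) : df a d e k l ^ 2 =
    al a d e * ((k : ℤ) ^ 2) ^ 2 + be a d e * ((k : ℤ) ^ 2 * (l : ℤ) ^ 2)
      + ga a d e * ((l : ℤ) ^ 2) ^ 2 := by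
  interval_cases a <;> simp [df, al, be, ga] <;> ring

/-- The index data `(v, m, d₁, d₂, d₃)`. -/
abbrev Idx := (ℕ × ℕ × ℕ) × ℕ × ℕ × ℕ × ℕ

/-- The triple `t = (n, x, y)` comes from the index data `i` and the pair `(k, l)`. -/
def Dat (i : Idx) (t : ℕ × ℕ × ℕ) (k l : ℕ) : Prop :=
  i.1 ∈ V ∧ 0 < i.2.1 ∧ 0 < k ∧ 0 < l ∧ Nat.Coprime k l ∧ t.1 = i.2.1 * (k * l) ∧
  0 < t.2.1 ∧ 0 < t.2.2 ∧
  i.2.2.1 ∣ i.2.1 ^ 2 ∧ i.2.2.2.1 ∣ i.2.1 ^ 2 ∧ i.2.2.2.2 ∣ i.2.1 ^ 2 ∧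
  2 * (t.2.1 : ℤ) = df i.1.1 i.2.2.1 (i.2.1 ^ 2 / i.2.2.1) k l ∧
  2 * (t.2.2 : ℤ) = df i.1.2.1 i.2.2.2.1 (i.2.1 ^ 2 / i.2.2.2.1) k l ∧
  (2 * (t.2.1 : ℤ)) ^ 2 + (2 * (t.2.2 : ℤ)) ^ 2 =
    df i.1.2.2 i.2.2.2.2 (i.2.1 ^ 2 / i.2.2.2.2) k l ^ 2

def cA (i : Idx) : ℤ := al i.1.1 i.2.2.1 (i.2.1 ^ 2 / i.2.2.1) +
  al i.1.2.1 i.2.2.2.1 (i.2.1 ^ 2 / i.2.2.2.1) - al i.1.2.2 i.2.2.2.2 (i.2.1 ^ 2 / i.2.2.2.2)
def cB (i : Idx) : ℤ := be i.1.1 i.2.2.1 (i.2.1 ^ 2 / i.2.2.1) +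
  be i.1.2.1 i.2.2.2.1 (i.2.1 ^ 2 / i.2.2.2.1) - be i.1.2.2 i.2.2.2.2 (i.2.1 ^ 2 / i.2.2.2.2)
def cC (i : Idx) : ℤ := ga i.1.1 i.2.2.1 (i.2.1 ^ 2 / i.2.2.1) +
  ga i.1.2.1 i.2.2.2.1 (i.2.1 ^ 2 / i.2.2.2.1) - ga i.1.2.2 i.2.2.2.2 (i.2.1 ^ 2 / i.2.2.2.2)

theorem mem_V {v : ℕ × ℕ × ℕ} : v ∈ V ↔ (v.1 < 3 ∧ v.2.1 < 3 ∧ v.2.2 < 3) ∧
    ¬ (v.1 = 1 ∧ v.2.1 = 1) ∧ ¬ (v.1 = 1 ∧ v.2.2 = 1) ∧ ¬ (v.2.1 = 1 ∧ v.2.2 = 1) := by
  simp [V]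

theorem form_eq {i : Idx} {t : ℕ × ℕ × ℕ} {k l : ℕ} (h : Dat i t k l) :
    cA i * ((k : ℤ) ^ 2) ^ 2 + cB i * ((k : ℤ) ^ 2 * (l : ℤ) ^ 2) + cC i * ((l : ℤ) ^ 2) ^ 2 = 0 := by
  obtain ⟨hv, hm, hk, hl, hkl, hn, hx, hy, hd1, hd2, hd3, e1, e2, e3⟩ := h
  obtain ⟨⟨v1, v2, v3⟩, -⟩ := mem_V.1 hv
  rw [e1, e2, df_sq v1, df_sq v2, df_sq v3] at e3
  simp only [cA, cB, cC]
  linear_combination e3

theorem pos_of_dvd {d m : ℕ} (hm : 0 < m) (h : d ∣ m ^ 2) : 0 < d ∧ 0 < m ^ 2 / d ∧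
    d * (m ^ 2 / d) = m ^ 2 := by
  have h0 : 0 < m ^ 2 := by positivity
  exact ⟨Nat.pos_of_dvd_of_pos h h0, Nat.div_pos (Nat.le_of_dvd h0 h) (Nat.pos_of_dvd_of_pos h h0),
    Nat.mul_div_cancel' h⟩

theorem be_ne {a d e : ℕ} (h : a ≠ 1) (m : ℕ) (hde : d * e = m ^ 2) :
    be a d e = -2 * (m : ℤ) ^ 2 := by
  have : (d : ℤ) * e = (m : ℤ) ^ 2 := by exact_mod_cast hde
  simp [be, h, this]

theorem be_one_pos {d e k l u : ℕ} (hu : 0 < u) (h : 2 * (u : ℤ) = df 1 d e k l) :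
    0 < be 1 d e := by
  simp only [be, if_true]
  have hne : (d : ℤ) - e ≠ 0 := by
    intro h0
    have h1 : df 1 d e k l = ((d : ℤ) - e) * ((k : ℤ) * l) := by
      simp [df]; ring
    rw [h1, h0] at h
    have : (u : ℤ) = 0 := by linarith
    omega
  positivity

theorem form_ne {i : Idx} {t : ℕ × ℕ × ℕ} {k l : ℕ} (h : Dat i t k l) : cA i ≠ 0 ∨ cB i ≠ 0 := by
  obtain ⟨hv, hm, hk, hl, hkl, hn, hx, hy, hd1, hd2, hd3, e1, e2, e3⟩ := h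
  obtain ⟨⟨v1, v2, v3⟩, n12, n13, n23⟩ := mem_V.1 hv
  obtain ⟨p1, q1, r1⟩ := pos_of_dvd hm hd1
  obtain ⟨p2, q2, r2⟩ := pos_of_dvd hm hd2
  obtain ⟨p3, q3, r3⟩ := pos_of_dvd hm hd3
  have hM : (0 : ℤ) < (i.2.1 : ℤ) ^ 2 := by
    have : (0 : ℤ) < i.2.1 := by exact_mod_cast hm
    positivity
  by_cases h1 : i.1.1 = 1
  · right
    have h2 : i.1.2.1 ≠ 1 := fun h => n12 ⟨h1, h⟩
    have h3 : i.1.2.2 ≠ 1 := fun h => n13 ⟨h1, h⟩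
    rw [cB, be_ne h2 _ r2, be_ne h3 _ r3, h1]
    rw [h1] at e1
    have := be_one_pos hx e1
    linarith
  · by_cases h2 : i.1.2.1 = 1
    · right
      have h3 : i.1.2.2 ≠ 1 := fun h => n23 ⟨h2, h⟩
      rw [cB, be_ne h1 _ r1, be_ne h3 _ r3, h2]
      rw [h2] at e2
      have := be_one_pos hy e2
      linarith
    · by_cases h3 : i.1.2.2 = 1
      · left
        have hal : ∀ {a d e : ℕ}, a < 3 → a ≠ 1 → 0 < d → 0 < e → 0 < al a d e := by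
          intro a d e ha ha1 hd he
          have h4 : (0 : ℤ) < d := by exact_mod_cast hd
          have h5 : (0 : ℤ) < e := by exact_mod_cast he
          rcases (by omega : a = 0 ∨ a = 2) with rfl | rfl <;> simp [al] <;> positivity
        have h4 := hal v1 h1 p1 q1
        have h5 := hal v2 h2 p2 q2
        have h6 : al i.1.2.2 i.2.2.2.2 (i.2.1 ^ 2 / i.2.2.2.2) = 0 := by simp [al, h3]
        rw [cA, h6]
        linarith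
      · right
        rw [cB, be_ne h1 _ r1, be_ne h2 _ r2, be_ne h3 _ r3]
        linarith

theorem card_le_two {α : Type*} (S : Finset α) (r : α → ℚ) (hinj : Set.InjOn r S) (A B C : ℚ)
    (hne : A ≠ 0 ∨ B ≠ 0) (h : ∀ a ∈ S, A * (r a) ^ 2 + B * r a + C = 0) : S.card ≤ 2 := by
  classical
  set P : Polynomial ℚ := Polynomial.C A * Polynomial.X ^ 2 + Polynomial.C B * Polynomial.X
    + Polynomial.C C with hP
  have hP0 : P ≠ 0 := by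
    intro h0
    have h1 := congrArg (fun q => Polynomial.coeff q 2) h0
    have h2 := congrArg (fun q => Polynomial.coeff q 1) h0
    simp [hP] at h1
    simp [hP] at h2
    rcases hne with h3 | h3
    · exact h3 h1
    · exact h3 h2
  have hdeg : P.natDegree ≤ 2 := Polynomial.natDegree_quadratic_le
  rw [← Finset.card_image_of_injOn hinj]
  refine (Finset.card_le_card (t := P.roots.toFinset) ?_).trans
    ((Multiset.toFinset_card_le _).trans ((Polynomial.card_roots' P).trans hdeg))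
  intro q hq
  obtain ⟨a, ha, rfl⟩ := Finset.mem_image.1 hq
  rw [Multiset.mem_toFinset, Polynomial.mem_roots hP0]
  simp [hP, Polynomial.IsRoot]
  exact h a ha

theorem ratio_inj {k l k' l' : ℕ} (hk : 0 < k) (hl : 0 < l) (hkl : Nat.Coprime k l) (hk' : 0 < k')
    (hl' : 0 < l') (hkl' : Nat.Coprime k' l')
    (h : ((k : ℚ) ^ 2 / (l : ℚ) ^ 2) = (k' : ℚ) ^ 2 / (l' : ℚ) ^ 2) : k = k' ∧ l = l' := by
  have h1 : (k : ℚ) ^ 2 * (l' : ℚ) ^ 2 = (k' : ℚ) ^ 2 * (l : ℚ) ^ 2 := by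
    have e1 : (l : ℚ) ^ 2 ≠ 0 := by positivity
    have e2 : (l' : ℚ) ^ 2 ≠ 0 := by positivity
    rwa [div_eq_div_iff e1 e2] at h
  have h2 : (k * l') ^ 2 = (k' * l) ^ 2 := by
    have : ((k * l') ^ 2 : ℚ) = (k' * l) ^ 2 := by rw [mul_pow, mul_pow]; exact h1
    exact_mod_cast this
  have h3 : k * l' = k' * l := by
    have := Nat.pow_left_injective (n := 2) (by norm_num) h2
    exact this
  have h4 : k ∣ k' := hkl.dvd_of_dvd_mul_right (h3 ▸ Dvd.intro _ rfl)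
  have h5 : k' ∣ k := hkl'.dvd_of_dvd_mul_right (h3.symm ▸ Dvd.intro _ rfl)
  have h6 : k = k' := Nat.dvd_antisymm h4 h5
  subst h6
  exact ⟨rfl, (Nat.eq_of_mul_eq_mul_left hk h3).symm⟩

/-- At most two triples for a given index. -/
theorem fiber_le (i : Idx) (S : Finset (ℕ × ℕ × ℕ)) (h : ∀ t ∈ S, ∃ k l, Dat i t k l) :
    S.card ≤ 2 := by
  classical
  rcases S.eq_empty_or_nonempty with rfl | ⟨t₀, ht₀⟩
  · simp
  choose! k l hD using h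
  have hne := form_ne (hD t₀ ht₀)
  refine card_le_two S (fun t => (k t : ℚ) ^ 2 / (l t : ℚ) ^ 2) ?_ (cA i) (cB i) (cC i)
    (by simpa using hne) ?_
  · intro t ht t' ht' hr
    obtain ⟨hv, hm, hk, hl, hkl, hn, hx, hy, hd1, hd2, hd3, e1, e2, e3⟩ := hD t ht
    obtain ⟨-, -, hk', hl', hkl', hn', hx', hy', -, -, -, e1', e2', e3'⟩ := hD t' ht'
    obtain ⟨hkk, hll⟩ := ratio_inj hk hl hkl hk' hl' hkl' hr
    rw [hkk, hll] at hn e1 e2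
    have a1 : t.1 = t'.1 := by rw [hn, hn']
    have a2 : t.2.1 = t'.2.1 := by
      have : 2 * (t.2.1 : ℤ) = 2 * (t'.2.1 : ℤ) := by rw [e1, e1']
      omega
    have a3 : t.2.2 = t'.2.2 := by
      have : 2 * (t.2.2 : ℤ) = 2 * (t'.2.2 : ℤ) := by rw [e2, e2']
      omega
    exact Prod.ext a1 (Prod.ext a2 a3)
  · intro t ht
    have hf := form_eq (hD t ht)
    have hl : 0 < l t := (hD t ht).2.2.2.1
    have hl0 : ((l t : ℚ)) ^ 2 ≠ 0 := by positivity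
    have hf' : (cA i : ℚ) * ((k t : ℚ) ^ 2) ^ 2 + (cB i : ℚ) * ((k t : ℚ) ^ 2 * (l t : ℚ) ^ 2)
        + (cC i : ℚ) * ((l t : ℚ) ^ 2) ^ 2 = 0 := by exact_mod_cast hf
    have : (cA i : ℚ) * ((k t : ℚ) ^ 2 / (l t : ℚ) ^ 2) ^ 2
        + (cB i : ℚ) * ((k t : ℚ) ^ 2 / (l t : ℚ) ^ 2) + (cC i : ℚ)
        = ((cA i : ℚ) * ((k t : ℚ) ^ 2) ^ 2 + (cB i : ℚ) * ((k t : ℚ) ^ 2 * (l t : ℚ) ^ 2)
        + (cC i : ℚ) * ((l t : ℚ) ^ 2) ^ 2) / ((l t : ℚ) ^ 2) ^ 2 := by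
      field_simp
    rw [this, hf', zero_div]

end Pool.Agent.CubS
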