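import Mathlib
import Pool.Agent.CubS.Roots

/-!
# Primitive perfect cuboids: existence of index data with a small `m`
-/

namespace Pool.Agent.CubS

/-- Every positive integer is `w ^ 2 * g * u` with `g ∣ w`, `u` squarefree and every prime factor
of `u` dividing it exactly once. -/
theorem exists_wgu {n : ℕ} (hn : 0 < n) : ∃ w g u : ℕ, 0 < w ∧ g ∣ w ∧ 0 < g ∧ Squarefree u ∧
    n = w ^ 2 * g * u ∧ ∀ p : ℕ, p.Prime → p ∣ u → n.factorization p = 1 := by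
  obtain ⟨r, w, hwr, hr⟩ := Nat.sq_mul_squarefree n
  have hw : 0 < w := by
    rcases Nat.eq_zero_or_pos w with rfl | h
    · simp at hwr; omega
    · exact h
  have hr0 : 0 < r := Nat.pos_of_ne_zero hr.ne_zero
  set g := Nat.gcd r w with hg
  have hg0 : 0 < g := Nat.gcd_pos_of_pos_left _ hr0
  obtain ⟨u, hu⟩ : g ∣ r := Nat.gcd_dvd_left r w
  have hus : Squarefree u := hr.squarefree_of_dvd (hu ▸ Dvd.intro_left _ rfl)
  refine ⟨w, g, u, hw, Nat.gcd_dvd_right r w, hg0, hus, ?_, ?_⟩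
  · rw [← hwr, mul_assoc, ← hu]
  · intro p hp hpu
    have hpr : p ∣ r := hu ▸ Dvd.dvd.mul_left hpu g
    have hpg : ¬ p ∣ g := by
      intro h
      have h1 : p * p ∣ r := hu ▸ Nat.mul_dvd_mul h hpu
      have := hr p h1
      exact hp.one_lt.ne' (Nat.isUnit_iff.1 this)
    have hpw : ¬ p ∣ w := fun h => hpg (Nat.dvd_gcd hpr h)
    have e1 : r.factorization p = 1 := by
      have h1 := hr.natFactorization_le_one p
      have h2 := (hp.dvd_iff_one_le_factorization hr0.ne').1 hpr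
      omega
    rw [← hwr, Nat.factorization_mul (by positivity) hr0.ne', Nat.factorization_pow]
    simp [Nat.factorization_eq_zero_of_not_dvd hpw, e1]

/-- The product of the prime factors of `u` with pattern `v`. -/
noncomputable def Kp (u : ℕ) (pat : ℕ → ℕ × ℕ × ℕ) (v : ℕ × ℕ × ℕ) : ℕ :=
  ∏ p ∈ u.primeFactors with pat p = v, p

theorem Kp_pos (u : ℕ) (pat : ℕ → ℕ × ℕ × ℕ) (v : ℕ × ℕ × ℕ) : 0 < Kp u pat v :=
  Finset.prod_pos fun _ hp => (Nat.prime_of_mem_primeFactors (Finset.mem_filter.1 hp).1).pos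

theorem prime_dvd_Kp {u : ℕ} {pat : ℕ → ℕ × ℕ × ℕ} {v : ℕ × ℕ × ℕ} {p : ℕ} (hp : p.Prime)
    (h : p ∣ Kp u pat v) : p ∣ u ∧ pat p = v := by
  obtain ⟨q, hq, hpq⟩ := (Prime.dvd_finsetProd_iff hp.prime _).1 h
  obtain ⟨hq1, hq2⟩ := Finset.mem_filter.1 hq
  have : p = q := (Nat.prime_dvd_prime_iff_eq hp (Nat.prime_of_mem_primeFactors hq1)).1 hpq
  subst this
  exact ⟨Nat.dvd_of_mem_primeFactors hq1, hq2⟩

theorem Kp_dvd {u : ℕ} (hu : Squarefree u) (pat : ℕ → ℕ × ℕ × ℕ) (v : ℕ × ℕ × ℕ) :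
    Kp u pat v ∣ u := by
  conv_rhs => rw [← Nat.prod_primeFactors_of_squarefree hu]
  exact Finset.prod_dvd_prod_of_subset _ _ _ (Finset.filter_subset _ _)

theorem Kp_coprime (u : ℕ) (pat : ℕ → ℕ × ℕ × ℕ) {v v' : ℕ × ℕ × ℕ} (h : v ≠ v') :
    Nat.Coprime (Kp u pat v) (Kp u pat v') := by
  refine Nat.coprime_of_dvd fun p hp h1 h2 => ?_
  exact h ((prime_dvd_Kp hp h1).2.symm.trans (prime_dvd_Kp hp h2).2)

theorem prod_Kp {u : ℕ} (hu : Squarefree u) (pat : ℕ → ℕ × ℕ × ℕ)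
    (hpat : ∀ p ∈ u.primeFactors, pat p ∈ V) : ∏ v ∈ V, Kp u pat v = u := by
  have := Finset.prod_fiberwise_of_maps_to hpat (fun p => p)
  rw [Nat.prod_primeFactors_of_squarefree hu] at this
  exact this

theorem prod_comp (f : ℕ × ℕ × ℕ → ℕ) : ∏ v ∈ V, f (comp v) = ∏ v ∈ V, f v :=
  Finset.prod_nbij' comp comp comp_mem comp_mem comp_comp comp_comp (fun _ _ => rfl)

theorem exists_of_prod (f : ℕ × ℕ × ℕ → ℕ) (u : ℕ) (hf : ∀ v, 0 < f v)
    (h : ∏ v ∈ V, f v = u ^ 20) : ∃ v ∈ V, u ≤ f v := by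
  by_contra hc
  push Not at hc
  have h3 : ∏ v ∈ V, f v < ∏ v ∈ V, u :=
    Finset.prod_lt_prod_of_nonempty (fun v _ => hf v) hc V_nonempty
  have h4 : ∏ v ∈ V, u = u ^ 20 := by rw [Finset.prod_const, card_V]
  rw [h, h4] at h3
  exact lt_irrefl _ h3

theorem exists_large {u : ℕ} (hu : Squarefree u) (pat : ℕ → ℕ × ℕ × ℕ)
    (hpat : ∀ p ∈ u.primeFactors, pat p ∈ V) :
    ∃ v ∈ V, u ≤ (Kp u pat v * Kp u pat (comp v)) ^ 10 := by
  refine exists_of_prod (fun v => (Kp u pat v * Kp u pat (comp v)) ^ 10) u (fun v => ?_) ?_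
  · have a := Kp_pos u pat v
    have b := Kp_pos u pat (comp v)
    positivity
  · rw [Finset.prod_pow, Finset.prod_mul_distrib, prod_comp, prod_Kp hu pat hpat]
    ring

theorem shape_df {n s t x m k l a : ℕ} (hn : 0 < n) (hst : s * t = n ^ 2)
    (hsx : s = t + 2 * x) (hm : n = m * (k * l))
    (ha : a ≤ 2) (hk : Squarefree k) (hl : Squarefree l) (hkl : Nat.Coprime k l)
    (hvk : ∀ p : ℕ, p.Prime → p ∣ k → n.factorization p = 1 ∧ s.factorization p = a)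
    (hvl : ∀ p : ℕ, p.Prime → p ∣ l → n.factorization p = 1 ∧ s.factorization p = 2 - a) :
    ∃ d : ℕ, d ∣ m ^ 2 ∧ 2 * (x : ℤ) = df a d (m ^ 2 / d) k l := by
  obtain ⟨d, e, hde, hs, ht⟩ := shape hn hst hm ha hk hl hkl hvk hvl
  have hm0 : 0 < m := by
    rcases Nat.eq_zero_or_pos m with rfl | h
    · omega
    · exact h
  have hd0 : 0 < d := by
    rcases Nat.eq_zero_or_pos d with rfl | h
    · have : 0 < m ^ 2 := by positivity
      omega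
    · exact h
  refine ⟨d, ⟨e, hde.symm⟩, ?_⟩
  have he : m ^ 2 / d = e := by rw [← hde]; exact Nat.mul_div_cancel_left e hd0
  rw [he, df]
  have h1 : (2 * (x : ℤ)) = (s : ℤ) - t := by rw [hsx]; push_cast; ring
  rw [h1, hs, ht]
  push_cast
  ring

theorem exists_dat {n x y : ℕ} (h : PrimCuboid n x y) :
    ∃ (i : Idx) (k l w g c : ℕ), Dat i (n, x, y) k l ∧ 0 < w ∧ g ∣ w ∧ 0 < c ∧
      i.2.1 = w ^ 2 * g * c ∧ c ^ 10 * (w ^ 2 * g) ^ 9 ≤ n ^ 9 := by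
  obtain ⟨s₁, t₁, s₂, t₂, s₃, t₃, z, hz0, hz2, ⟨hs₁, hx₁⟩, ⟨hs₂, hx₂⟩, ⟨hs₃, hx₃⟩, hV⟩ :=
    exists_factors h
  obtain ⟨hn, hx, hy, -⟩ := h
  obtain ⟨w, g, u, hw, hgw, hg, hu, hnu, hval⟩ := exists_wgu hn
  set pat : ℕ → ℕ × ℕ × ℕ := fun p =>
    (s₁.factorization p, s₂.factorization p, s₃.factorization p) with hpat
  have hpV : ∀ p ∈ u.primeFactors, pat p ∈ V := fun p hp =>
    hV p (Nat.prime_of_mem_primeFactors hp)
      (hval p (Nat.prime_of_mem_primeFactors hp) (Nat.dvd_of_mem_primeFactors hp))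
  obtain ⟨v, hv, hlarge⟩ := exists_large hu pat hpV
  set k := Kp u pat v with hk
  set l := Kp u pat (comp v) with hl
  have hk0 : 0 < k := Kp_pos _ _ _
  have hl0 : 0 < l := Kp_pos _ _ _
  have hkl : Nat.Coprime k l := Kp_coprime u pat (comp_ne v hv).symm
  have hku : k ∣ u := Kp_dvd hu pat v
  have hlu : l ∣ u := Kp_dvd hu pat (comp v)
  have hks : Squarefree k := hu.squarefree_of_dvd hku
  have hls : Squarefree l := hu.squarefree_of_dvd hlu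
  obtain ⟨c, hc⟩ := hkl.mul_dvd_of_dvd_of_dvd hku hlu
  have hu0 : 0 < u := Nat.pos_of_ne_zero hu.ne_zero
  have hc0 : 0 < c := by
    rcases Nat.eq_zero_or_pos c with rfl | h
    · omega
    · exact h
  obtain ⟨⟨v1, v2, v3⟩, -⟩ := mem_V.1 hv
  set m := w ^ 2 * g * c with hm
  have hnm : n = m * (k * l) := by rw [hnu, hc, hm]; ring
  have hvk : ∀ p : ℕ, p.Prime → p ∣ k → n.factorization p = 1 ∧ pat p = v := fun p hp h =>
    ⟨hval p hp (prime_dvd_Kp hp h).1, (prime_dvd_Kp hp h).2⟩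
  have hvl : ∀ p : ℕ, p.Prime → p ∣ l → n.factorization p = 1 ∧ pat p = comp v := fun p hp h =>
    ⟨hval p hp (prime_dvd_Kp hp h).1, (prime_dvd_Kp hp h).2⟩
  obtain ⟨d₁, hd₁, hdf₁⟩ := shape_df (a := v.1) hn hs₁ hx₁ hnm (by omega) hks hls hkl
    (fun p hp h => ⟨(hvk p hp h).1, congrArg (fun q => q.1) (hvk p hp h).2⟩)
    (fun p hp h => ⟨(hvl p hp h).1, congrArg (fun q => q.1) (hvl p hp h).2⟩)
  obtain ⟨d₂, hd₂, hdf₂⟩ := shape_df (a := v.2.1) hn hs₂ hx₂ hnm (by omega) hks hls hkl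
    (fun p hp h => ⟨(hvk p hp h).1, congrArg (fun q => q.2.1) (hvk p hp h).2⟩)
    (fun p hp h => ⟨(hvl p hp h).1, congrArg (fun q => q.2.1) (hvl p hp h).2⟩)
  obtain ⟨d₃, hd₃, hdf₃⟩ := shape_df (a := v.2.2) hn hs₃ hx₃ hnm (by omega) hks hls hkl
    (fun p hp h => ⟨(hvk p hp h).1, congrArg (fun q => q.2.2) (hvk p hp h).2⟩)
    (fun p hp h => ⟨(hvl p hp h).1, congrArg (fun q => q.2.2) (hvl p hp h).2⟩)
  have hm0 : 0 < m := by rw [hm]; positivity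
  refine ⟨(v, m, d₁, d₂, d₃), k, l, w, g, c, ?_, hw, hgw, hc0, hm, ?_⟩
  · refine ⟨hv, hm0, hk0, hl0, hkl, hnm, hx, hy, hd₁, hd₂, hd₃, hdf₁, hdf₂, ?_⟩
    have hz : (z : ℤ) ^ 2 = (x : ℤ) ^ 2 + (y : ℤ) ^ 2 := by exact_mod_cast hz2
    show (2 * (x : ℤ)) ^ 2 + (2 * (y : ℤ)) ^ 2 = df v.2.2 d₃ (m ^ 2 / d₃) k l ^ 2
    rw [← hdf₃]
    linear_combination -4 * hz
  · have h1 : c ^ 10 ≤ u ^ 9 := by
      have h2 : u * c ^ 10 ≤ u * u ^ 9 := by
        calc u * c ^ 10 ≤ (k * l) ^ 10 * c ^ 10 := Nat.mul_le_mul_right _ hlarge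
          _ = (k * l * c) ^ 10 := by ring
          _ = u * u ^ 9 := by rw [← hc]; ring
      exact Nat.le_of_mul_le_mul_left h2 hu0
    calc c ^ 10 * (w ^ 2 * g) ^ 9 ≤ u ^ 9 * (w ^ 2 * g) ^ 9 := Nat.mul_le_mul_right _ h1
      _ = n ^ 9 := by rw [hnu]; ring

end Pool.Agent.CubS
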