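import Mathlib
import Pool.Agent.CubS.Exist
import Pool.Agent.Hhelper87.SigmaTwo.DivBound

/-!
# Counting primitive perfect cuboids by one edge
-/

namespace Pool.Agent.CubS

open Finset

/-- Candidates for `m`. -/
noncomputable def MX (X : ℕ) : Finset ℕ :=
  ((Finset.Icc 1 X).biUnion fun w => (w.divisors ×ˢ
    Finset.Icc 1 ⌊((X : ℝ) / (w : ℝ) ^ 2) ^ (9 / 10 : ℝ)⌋₊).image
      (fun q => w ^ 2 * q.1 * q.2)).filter (fun m => 0 < m ∧ m ≤ X)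

/-- Candidates for the index data. -/
noncomputable def IX (X : ℕ) : Finset Idx :=
  V ×ˢ ((MX X).biUnion fun m => {m} ×ˢ ((m ^ 2).divisors ×ˢ
    ((m ^ 2).divisors ×ˢ (m ^ 2).divisors)))

theorem mem_MX {X n w g c : ℕ} (hn : 0 < n) (hnX : n ≤ X) (hw : 0 < w) (hg : g ∣ w) (hc : 0 < c)
    (hm : w ^ 2 * g * c ≤ X) (h : c ^ 10 * (w ^ 2 * g) ^ 9 ≤ n ^ 9) :
    w ^ 2 * g * c ∈ MX X := by
  have hg0 : 0 < g := Nat.pos_of_dvd_of_pos hg hw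
  have hX : (0 : ℝ) < X := by exact_mod_cast (lt_of_lt_of_le hn hnX)
  have hwR : (0 : ℝ) < (w : ℝ) ^ 2 := by
    have : (0 : ℝ) < w := by exact_mod_cast hw
    positivity
  refine Finset.mem_filter.2 ⟨Finset.mem_biUnion.2 ⟨w, ?_, Finset.mem_image.2 ⟨(g, c), ?_, rfl⟩⟩,
    by positivity, hm⟩
  · refine Finset.mem_Icc.2 ⟨hw, ?_⟩
    calc w = w * 1 * 1 * 1 := by ring
      _ ≤ w * w * g * c := by
        refine Nat.mul_le_mul (Nat.mul_le_mul (Nat.mul_le_mul le_rfl hw) hg0) hc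
      _ = w ^ 2 * g * c := by ring
      _ ≤ X := hm
  · refine Finset.mem_product.2 ⟨Nat.mem_divisors.2 ⟨hg, hw.ne'⟩, Finset.mem_Icc.2 ⟨hc, ?_⟩⟩
    refine Nat.le_floor ?_
    have h1 : (c : ℝ) ^ 10 ≤ ((X : ℝ) / (w : ℝ) ^ 2) ^ 9 := by
      rw [div_pow, le_div_iff₀ (by positivity)]
      have h2 : c ^ 10 * (w ^ 2) ^ 9 ≤ X ^ 9 := by
        calc c ^ 10 * (w ^ 2) ^ 9 ≤ c ^ 10 * (w ^ 2 * g) ^ 9 := by
              refine Nat.mul_le_mul le_rfl (Nat.pow_le_pow_left ?_ 9)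
              exact Nat.le_mul_of_pos_right _ hg0
          _ ≤ n ^ 9 := h
          _ ≤ X ^ 9 := Nat.pow_le_pow_left hnX 9
      exact_mod_cast h2
    have h3 : ((c : ℝ) ^ 10) ^ (1 / 10 : ℝ) ≤ (((X : ℝ) / (w : ℝ) ^ 2) ^ 9) ^ (1 / 10 : ℝ) :=
      Real.rpow_le_rpow (by positivity) h1 (by norm_num)
    have h4 : ((c : ℝ) ^ 10) ^ (1 / 10 : ℝ) = c := by
      rw [← Real.rpow_natCast, ← Real.rpow_mul (by positivity)]
      norm_num
    have h5 : (((X : ℝ) / (w : ℝ) ^ 2) ^ 9) ^ (1 / 10 : ℝ)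
        = ((X : ℝ) / (w : ℝ) ^ 2) ^ (9 / 10 : ℝ) := by
      rw [← Real.rpow_natCast, ← Real.rpow_mul (by positivity)]
      norm_num
    rw [h4, h5] at h3
    exact h3

theorem card_MX_le {X : ℕ} (hX : 0 < X) {D : ℝ} (hD : 0 ≤ D)
    (hdiv : ∀ w : ℕ, 0 < w → w ≤ X → (w.divisors.card : ℝ) ≤ D) :
    ((MX X).card : ℝ) ≤ D * (∑' w : ℕ, 1 / (w : ℝ) ^ (9 / 5 : ℝ)) * (X : ℝ) ^ (9 / 10 : ℝ) := by
  have hX0 : (0 : ℝ) < X := by exact_mod_cast hX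
  have h1 : (MX X).card ≤ ∑ w ∈ Finset.Icc 1 X,
      w.divisors.card * ⌊((X : ℝ) / (w : ℝ) ^ 2) ^ (9 / 10 : ℝ)⌋₊ := by
    refine (Finset.card_filter_le _ _).trans (Finset.card_biUnion_le.trans
      (Finset.sum_le_sum fun w _ => Finset.card_image_le.trans ?_))
    rw [Finset.card_product, Nat.card_Icc]
    simp
  have hsum : Summable (fun w : ℕ => 1 / (w : ℝ) ^ (9 / 5 : ℝ)) :=
    Real.summable_one_div_nat_rpow.2 (by norm_num)
  calc ((MX X).card : ℝ) ≤ ∑ w ∈ Finset.Icc 1 X,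
        (w.divisors.card : ℝ) * (⌊((X : ℝ) / (w : ℝ) ^ 2) ^ (9 / 10 : ℝ)⌋₊ : ℝ) := by
        exact_mod_cast h1
    _ ≤ ∑ w ∈ Finset.Icc 1 X, D * (X : ℝ) ^ (9 / 10 : ℝ) * (1 / (w : ℝ) ^ (9 / 5 : ℝ)) := by
        refine Finset.sum_le_sum fun w hw => ?_
        obtain ⟨hw1, hw2⟩ := Finset.mem_Icc.1 hw
        have hw0 : (0 : ℝ) < w := by exact_mod_cast hw1
        have h2 : (⌊((X : ℝ) / (w : ℝ) ^ 2) ^ (9 / 10 : ℝ)⌋₊ : ℝ)
            ≤ (X : ℝ) ^ (9 / 10 : ℝ) * (1 / (w : ℝ) ^ (9 / 5 : ℝ)) := by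
          refine (Nat.floor_le (by positivity)).trans (le_of_eq ?_)
          rw [Real.div_rpow hX0.le (by positivity)]
          have h3 : ((w : ℝ) ^ 2) ^ (9 / 10 : ℝ) = (w : ℝ) ^ (9 / 5 : ℝ) := by
            rw [← Real.rpow_natCast, ← Real.rpow_mul hw0.le]
            norm_num
          rw [h3, one_div, div_eq_mul_inv]
        calc (w.divisors.card : ℝ) * (⌊((X : ℝ) / (w : ℝ) ^ 2) ^ (9 / 10 : ℝ)⌋₊ : ℝ)
            ≤ D * ((X : ℝ) ^ (9 / 10 : ℝ) * (1 / (w : ℝ) ^ (9 / 5 : ℝ))) :=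
              mul_le_mul (hdiv w hw1 hw2) h2 (by positivity) hD
          _ = _ := by ring
    _ = D * (X : ℝ) ^ (9 / 10 : ℝ) * ∑ w ∈ Finset.Icc 1 X, (1 / (w : ℝ) ^ (9 / 5 : ℝ)) := by
        rw [Finset.mul_sum]
    _ ≤ D * (X : ℝ) ^ (9 / 10 : ℝ) * ∑' w : ℕ, 1 / (w : ℝ) ^ (9 / 5 : ℝ) := by
        refine mul_le_mul_of_nonneg_left ?_ (by positivity)
        exact hsum.sum_le_tsum _ (fun w _ => by positivity)
    _ = _ := by ring

theorem card_IX_le {X : ℕ} {E : ℝ} (hE : 0 ≤ E)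
    (hdiv : ∀ m : ℕ, 0 < m → m ≤ X → (((m ^ 2).divisors.card : ℕ) : ℝ) ≤ E) :
    ((IX X).card : ℝ) ≤ 20 * ((MX X).card : ℝ) * E ^ 3 := by
  have h1 : (IX X).card ≤ 20 * ∑ m ∈ MX X, (m ^ 2).divisors.card ^ 3 := by
    rw [IX, Finset.card_product, card_V]
    refine Nat.mul_le_mul_left 20 (Finset.card_biUnion_le.trans
      (Finset.sum_le_sum fun m _ => ?_))
    rw [Finset.card_product, Finset.card_product, Finset.card_product, Finset.card_singleton]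
    exact le_of_eq (by ring)
  have h2 : ((IX X).card : ℝ) ≤ 20 * ∑ m ∈ MX X, ((m ^ 2).divisors.card : ℝ) ^ 3 := by
    exact_mod_cast h1
  refine h2.trans ?_
  have h3 : ∑ m ∈ MX X, ((m ^ 2).divisors.card : ℝ) ^ 3 ≤ ∑ _m ∈ MX X, E ^ 3 := by
    refine Finset.sum_le_sum fun m hm => ?_
    obtain ⟨-, h4, h5⟩ := Finset.mem_filter.1 hm
    exact pow_le_pow_left₀ (by positivity) (hdiv m h4 h5) 3
  rw [Finset.sum_const, nsmul_eq_mul] at h3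
  nlinarith

theorem card_le {X : ℕ} (S : Finset (ℕ × ℕ × ℕ))
    (hS : ∀ t ∈ S, t.1 ≤ X ∧ PrimCuboid t.1 t.2.1 t.2.2) : S.card ≤ 2 * (IX X).card := by
  classical
  have hex : ∀ t ∈ S, ∃ i : Idx, i ∈ IX X ∧ ∃ k l, Dat i t k l := by
    intro t ht
    obtain ⟨hX, hc⟩ := hS t ht
    obtain ⟨i, k, l, w, g, c, hD, hw, hg, hc0, hm, hle⟩ := exists_dat hc
    refine ⟨i, ?_, k, l, hD⟩
    obtain ⟨hv, hm0, hk, hl, hkl, hn, hx, hy, hd1, hd2, hd3, -⟩ := hD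
    have hn0 : 0 < t.1 := hc.1
    have hmX : i.2.1 ≤ X := by
      have hn' : t.1 = i.2.1 * (k * l) := hn
      have : i.2.1 ≤ i.2.1 * (k * l) := Nat.le_mul_of_pos_right _ (Nat.mul_pos hk hl)
      omega
    have hsq : i.2.1 ^ 2 ≠ 0 := by positivity
    refine Finset.mem_product.2 ⟨hv, Finset.mem_biUnion.2 ⟨i.2.1, ?_, ?_⟩⟩
    · rw [hm]
      exact mem_MX hn0 hX hw hg hc0 (hm ▸ hmX) hle
    · exact Finset.mem_product.2 ⟨Finset.mem_singleton_self _, Finset.mem_product.2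
        ⟨Nat.mem_divisors.2 ⟨hd1, hsq⟩, Finset.mem_product.2 ⟨Nat.mem_divisors.2 ⟨hd2, hsq⟩,
          Nat.mem_divisors.2 ⟨hd3, hsq⟩⟩⟩⟩
  choose! f hf hD using hex
  have h1 : S.card ≤ 2 * (S.image f).card := by
    refine Finset.card_le_mul_card_image S 2 fun i hi => ?_
    refine fiber_le i _ fun t ht => ?_
    obtain ⟨ht1, ht2⟩ := Finset.mem_filter.1 ht
    rw [← ht2]
    exact hD t ht1
  refine h1.trans (Nat.mul_le_mul_left 2 (Finset.card_le_card ?_))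
  intro i hi
  obtain ⟨t, ht, rfl⟩ := Finset.mem_image.1 hi
  exact hf t ht

theorem sparse (ε : ℝ) (hε : 0 < ε) : ∃ C : ℝ, ∀ X : ℕ, ∀ S : Finset (ℕ × ℕ × ℕ),
    (∀ t ∈ S, t.1 ≤ X ∧ PrimCuboid t.1 t.2.1 t.2.2) →
      (S.card : ℝ) ≤ C * (X : ℝ) ^ (9 / 10 + ε) := by
  obtain ⟨C, hC1, hC⟩ := Pool.Agent.Hhelper87.divisor_bound (ε / 7) (by positivity)
  set Z : ℝ := ∑' w : ℕ, 1 / (w : ℝ) ^ (9 / 5 : ℝ) with hZ
  have hZ0 : 0 ≤ Z := tsum_nonneg fun w => by positivity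
  have hC0 : 0 ≤ C := by linarith
  refine ⟨40 * C ^ 4 * Z, fun X S hS => ?_⟩
  rcases Nat.eq_zero_or_pos X with rfl | hX
  · have : S = ∅ := by
      refine Finset.eq_empty_of_forall_notMem fun t ht => ?_
      have h1 := hS t ht
      have := h1.2.1
      omega
    rw [this]
    simp
    positivity
  · have hX0 : (0 : ℝ) < X := by exact_mod_cast hX
    have hX1 : (1 : ℝ) ≤ X := by exact_mod_cast hX
    have hd1 : ∀ w : ℕ, 0 < w → w ≤ X → (w.divisors.card : ℝ) ≤ C * (X : ℝ) ^ (ε / 7) := by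
      intro w hw hwX
      refine (hC w hw.ne').trans (mul_le_mul_of_nonneg_left ?_ hC0)
      exact Real.rpow_le_rpow (by positivity) (by exact_mod_cast hwX) (by positivity)
    have hd2 : ∀ m : ℕ, 0 < m → m ≤ X →
        (((m ^ 2).divisors.card : ℕ) : ℝ) ≤ C * (X : ℝ) ^ (2 * (ε / 7)) := by
      intro m hm hmX
      refine (hC (m ^ 2) (by positivity)).trans (mul_le_mul_of_nonneg_left ?_ hC0)
      have h2 : (((m ^ 2 : ℕ) : ℝ)) ^ (ε / 7) = (m : ℝ) ^ (2 * (ε / 7)) := by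
        push_cast
        rw [← Real.rpow_natCast, ← Real.rpow_mul (by positivity)]
        norm_num
      rw [h2]
      exact Real.rpow_le_rpow (by positivity) (by exact_mod_cast hmX) (by positivity)
    have h1 := card_MX_le hX (by positivity) hd1
    have h2 := card_IX_le (X := X) (by positivity) hd2
    have h3 : (S.card : ℝ) ≤ 2 * ((IX X).card : ℝ) := by exact_mod_cast card_le S hS
    have h4 : (X : ℝ) ^ (9 / 10 + ε)
        = (X : ℝ) ^ (ε / 7) * (X : ℝ) ^ (9 / 10 : ℝ) * ((X : ℝ) ^ (2 * (ε / 7))) ^ 3 := by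
      rw [← Real.rpow_natCast ((X : ℝ) ^ (2 * (ε / 7))), ← Real.rpow_mul hX0.le,
        ← Real.rpow_add hX0, ← Real.rpow_add hX0]
      congr 1
      push_cast
      ring
    calc (S.card : ℝ) ≤ 2 * ((IX X).card : ℝ) := h3
      _ ≤ 2 * (20 * ((MX X).card : ℝ) * (C * (X : ℝ) ^ (2 * (ε / 7))) ^ 3) := by linarith
      _ ≤ 2 * (20 * (C * (X : ℝ) ^ (ε / 7) * Z * (X : ℝ) ^ (9 / 10 : ℝ))
            * (C * (X : ℝ) ^ (2 * (ε / 7))) ^ 3) := by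
          have h5 : (0 : ℝ) ≤ (C * (X : ℝ) ^ (2 * (ε / 7))) ^ 3 := by positivity
          have := mul_le_mul_of_nonneg_right h1 h5
          linarith
      _ = 40 * C ^ 4 * Z * ((X : ℝ) ^ (ε / 7) * (X : ℝ) ^ (9 / 10 : ℝ)
            * ((X : ℝ) ^ (2 * (ε / 7))) ^ 3) := by ring
      _ = 40 * C ^ 4 * Z * (X : ℝ) ^ (9 / 10 + ε) := by rw [h4]

end Pool.Agent.CubS
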