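import Mathlib
import Pool.Agent.CubS.Basic

/-!
# The largest prime factor of an edge of a primitive perfect cuboid

Let `p` divide the edge `n` exactly once, `n = m p`, `T = p ^ 2`, `M = m ^ 2`. The relation between
the three factorisations of `n ^ 2` is a quadratic equation for `T` with coefficients built from
divisors of `M`; moreover `T` divides its constant coefficient. This gives `T < 2 M`.
-/

namespace Pool.Agent.CubS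

theorem bound_of_mul {d e M : ℤ} (hd : 1 ≤ d) (he : 1 ≤ e) (h : d * e = M) : d ≤ M ∧ e ≤ M := by
  constructor <;> nlinarith

theorem le_of_mul_eq {a b c d : ℤ} (hb : 1 ≤ b) (hc : 1 ≤ c) (h : a * b = c * d) (hca : c ≤ a) :
    b ≤ d := by
  by_contra hh
  push Not at hh
  nlinarith

/-- No entry 1. -/
theorem case_none {a₁ b₁ a₂ b₂ a₃ b₃ M T : ℤ} (h1 : 1 ≤ a₁) (k1 : 1 ≤ b₁) (h2 : 1 ≤ a₂)
    (k2 : 1 ≤ b₂) (h3 : 1 ≤ a₃) (k3 : 1 ≤ b₃) (e1 : a₁ * b₁ = M) (e2 : a₂ * b₂ = M)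
    (e3 : a₃ * b₃ = M) (hT : 2 * M ≤ T)
    (hE : (a₁ * T - b₁) ^ 2 + (a₂ * T - b₂) ^ 2 = (a₃ * T - b₃) ^ 2) : False := by
  obtain ⟨p1, q1⟩ := bound_of_mul h1 k1 e1
  obtain ⟨p2, q2⟩ := bound_of_mul h2 k2 e2
  obtain ⟨p3, q3⟩ := bound_of_mul h3 k3 e3
  have hM1 : 1 ≤ M := by omega
  have hb1 : b₁ ^ 2 ≤ M ^ 2 := by nlinarith
  have hb2 : b₂ ^ 2 ≤ M ^ 2 := by nlinarith
  have hb3 : b₃ ^ 2 ≤ M ^ 2 := by nlinarith
  have hE' : (a₁ ^ 2 + a₂ ^ 2 - a₃ ^ 2) * T ^ 2 = 2 * M * T - (b₁ ^ 2 + b₂ ^ 2 - b₃ ^ 2) := by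
    have : (a₁ ^ 2 + a₂ ^ 2 - a₃ ^ 2) * T ^ 2
        = 2 * (a₁ * b₁) * T + 2 * (a₂ * b₂) * T - 2 * (a₃ * b₃) * T
          - (b₁ ^ 2 + b₂ ^ 2 - b₃ ^ 2) := by linear_combination hE
    rw [e1, e2, e3] at this
    linarith
  have hTT : 2 * M * T ≤ T ^ 2 := by nlinarith
  have hMM : 4 * M ^ 2 ≤ T ^ 2 := by nlinarith
  have hM2 : 1 ≤ M ^ 2 := by nlinarith
  have hbig : 4 ≤ a₁ ^ 2 + a₂ ^ 2 - a₃ ^ 2 → False := fun h => by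
    have : 4 * T ^ 2 ≤ (a₁ ^ 2 + a₂ ^ 2 - a₃ ^ 2) * T ^ 2 := by nlinarith [sq_nonneg T]
    nlinarith [sq_nonneg b₁, sq_nonneg b₂]
  rcases lt_trichotomy (a₁ ^ 2 + a₂ ^ 2 - a₃ ^ 2) 0 with h | h | h
  · have : (a₁ ^ 2 + a₂ ^ 2 - a₃ ^ 2) * T ^ 2 ≤ -T ^ 2 := by nlinarith [sq_nonneg T]
    have : 0 ≤ 2 * M * T := by nlinarith
    nlinarith [sq_nonneg b₃]
  · rw [h] at hE'
    have : 4 * M ^ 2 ≤ 2 * M * T := by nlinarith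
    nlinarith [sq_nonneg b₃]
  · rcases lt_or_ge a₃ a₁ with h4 | h4
    · exact hbig (by nlinarith)
    · rcases lt_or_ge a₃ a₂ with h5 | h5
      · exact hbig (by nlinarith)
      · have h6 : b₃ ≤ b₁ := le_of_mul_eq k3 h1 (by rw [e3, e1]) h4
        have h7 : b₃ ^ 2 ≤ b₁ ^ 2 := by nlinarith
        have h8 : 1 ≤ b₂ ^ 2 := by nlinarith
        have : T ^ 2 ≤ (a₁ ^ 2 + a₂ ^ 2 - a₃ ^ 2) * T ^ 2 := by nlinarith [sq_nonneg T]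
        linarith

/-- The entry 1 is the third one. -/
theorem case_three {a₁ b₁ a₂ b₂ a₃ b₃ M T : ℤ} (h1 : 1 ≤ a₁) (k1 : 1 ≤ b₁) (h2 : 1 ≤ a₂)
    (h3 : 1 ≤ a₃) (k3 : 1 ≤ b₃) (e1 : a₁ * b₁ = M) (e2 : a₂ * b₂ = M)
    (e3 : a₃ * b₃ = M) (hT : 2 * M ≤ T) (hco : IsCoprime T M)
    (hE : (a₁ * T - b₁) ^ 2 + (a₂ * T - b₂) ^ 2 = T * (a₃ - b₃) ^ 2) : False := by
  obtain ⟨p3, q3⟩ := bound_of_mul h3 k3 e3
  have hM1 : 1 ≤ M := by omega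
  have hT1 : 0 < T := by omega
  have hdvd : T ∣ a₁ ^ 2 + a₂ ^ 2 := by
    have h5 : T ∣ M ^ 2 * (a₁ ^ 2 + a₂ ^ 2) := by
      refine ⟨(a₁ * a₂) ^ 2 * ((a₃ - b₃) ^ 2 - a₁ ^ 2 * T + 2 * a₁ * b₁ - a₂ ^ 2 * T
        + 2 * a₂ * b₂), ?_⟩
      have h6 : M ^ 2 * (a₁ ^ 2 + a₂ ^ 2) = (a₁ * a₂) ^ 2 * (b₁ ^ 2 + b₂ ^ 2) := by
        calc M ^ 2 * (a₁ ^ 2 + a₂ ^ 2) = M ^ 2 * a₂ ^ 2 + M ^ 2 * a₁ ^ 2 := by ring
          _ = (a₁ * b₁) ^ 2 * a₂ ^ 2 + (a₂ * b₂) ^ 2 * a₁ ^ 2 := by rw [e1, e2]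
          _ = _ := by ring
      rw [h6]
      linear_combination (a₁ * a₂) ^ 2 * hE
    exact (hco.pow_right (n := 2)).dvd_of_dvd_mul_left h5
  have h4 : (a₃ - b₃) ^ 2 ≤ (M - 1) ^ 2 := by
    have : |a₃ - b₃| ≤ |M - 1| := by
      rw [abs_of_nonneg (by omega : (0:ℤ) ≤ M - 1)]
      rw [abs_le]
      constructor <;> omega
    exact sq_le_sq.2 this
  have hE' : (a₁ ^ 2 + a₂ ^ 2) * T ^ 2 + (b₁ ^ 2 + b₂ ^ 2) = 4 * M * T + T * (a₃ - b₃) ^ 2 := by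
    have : (a₁ ^ 2 + a₂ ^ 2) * T ^ 2 + (b₁ ^ 2 + b₂ ^ 2)
        = 2 * (a₁ * b₁) * T + 2 * (a₂ * b₂) * T + T * (a₃ - b₃) ^ 2 := by linear_combination hE
    rw [e1, e2] at this
    linarith
  have h5 : T ≤ a₁ ^ 2 + a₂ ^ 2 := Int.le_of_dvd (by positivity) hdvd
  have h6 : T * T ^ 2 ≤ (a₁ ^ 2 + a₂ ^ 2) * T ^ 2 := mul_le_mul_of_nonneg_right h5 (sq_nonneg T)
  have h7 : T * (a₃ - b₃) ^ 2 ≤ T * (M - 1) ^ 2 := mul_le_mul_of_nonneg_left h4 (by omega)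
  have h8 : T * T ^ 2 ≤ T * (M + 1) ^ 2 := by nlinarith [sq_nonneg b₁, sq_nonneg b₂]
  have h9 : T ^ 2 ≤ (M + 1) ^ 2 := le_of_mul_le_mul_left h8 hT1
  rcases eq_or_lt_of_le hM1 with h | h
  · -- `M = 1`: all divisors are one
    have ha1 : a₁ = 1 := by
      have := bound_of_mul h1 k1 e1
      omega
    have hb1 : b₁ = 1 := by
      have := bound_of_mul h1 k1 e1
      omega
    have h10 : (a₃ - b₃) ^ 2 = 0 := by
      have : a₃ = 1 := by omega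
      have h11 : b₃ = 1 := by omega
      rw [this, h11]; ring
    rw [h10, ha1, hb1] at hE
    have h12 : (1 * T - 1) ^ 2 ≤ 0 := by nlinarith [sq_nonneg (a₂ * T - b₂)]
    nlinarith
  · nlinarith

/-- The entry 1 is the second one. -/
theorem case_two {a₁ b₁ a₂ b₂ a₃ b₃ M T : ℤ} (h1 : 1 ≤ a₁) (k1 : 1 ≤ b₁) (h2 : 1 ≤ a₂)
    (k2 : 1 ≤ b₂) (h3 : 1 ≤ a₃) (k3 : 1 ≤ b₃) (e1 : a₁ * b₁ = M) (e2 : a₂ * b₂ = M)
    (e3 : a₃ * b₃ = M) (hT : 2 * M ≤ T) (hco : IsCoprime T M) (hne : a₂ ≠ b₂)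
    (hE : (a₁ * T - b₁) ^ 2 + T * (a₂ - b₂) ^ 2 = (a₃ * T - b₃) ^ 2) : False := by
  obtain ⟨p1, q1⟩ := bound_of_mul h1 k1 e1
  obtain ⟨p2, q2⟩ := bound_of_mul h2 k2 e2
  obtain ⟨p3, q3⟩ := bound_of_mul h3 k3 e3
  have hM1 : 1 ≤ M := by omega
  have hT1 : 0 < T := by omega
  have hdvd : T ∣ a₃ ^ 2 - a₁ ^ 2 := by
    have h5 : T ∣ M ^ 2 * (a₃ ^ 2 - a₁ ^ 2) := by
      refine ⟨(a₁ * a₃) ^ 2 * (a₃ ^ 2 * T - 2 * a₃ * b₃ - a₁ ^ 2 * T + 2 * a₁ * b₁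
        - (a₂ - b₂) ^ 2), ?_⟩
      have h6 : M ^ 2 * (a₃ ^ 2 - a₁ ^ 2) = (a₁ * a₃) ^ 2 * (b₁ ^ 2 - b₃ ^ 2) := by
        calc M ^ 2 * (a₃ ^ 2 - a₁ ^ 2) = M ^ 2 * a₃ ^ 2 - M ^ 2 * a₁ ^ 2 := by ring
          _ = (a₁ * b₁) ^ 2 * a₃ ^ 2 - (a₃ * b₃) ^ 2 * a₁ ^ 2 := by rw [e1, e3]
          _ = _ := by ring
      rw [h6]
      linear_combination (a₁ * a₃) ^ 2 * hE
    exact (hco.pow_right (n := 2)).dvd_of_dvd_mul_left h5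
  have h4 : (a₂ - b₂) ^ 2 ≤ (M - 1) ^ 2 := by
    have : |a₂ - b₂| ≤ |M - 1| := by
      rw [abs_of_nonneg (by omega : (0:ℤ) ≤ M - 1)]
      rw [abs_le]
      constructor <;> omega
    exact sq_le_sq.2 this
  have hb1 : b₁ ^ 2 ≤ M ^ 2 := by nlinarith
  have hb3 : b₃ ^ 2 ≤ M ^ 2 := by nlinarith
  have hM2 : 1 ≤ M ^ 2 := by nlinarith
  have hMM : 4 * M ^ 2 ≤ T ^ 2 := by nlinarith
  have hTM : T * (4 * M ^ 2) ≤ T * T ^ 2 := mul_le_mul_of_nonneg_left hMM hT1.le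
  have hTM' : M ^ 2 ≤ T * M ^ 2 := by nlinarith
  have hE' : (a₃ ^ 2 - a₁ ^ 2) * T ^ 2 = T * (a₂ - b₂) ^ 2 + (b₁ ^ 2 - b₃ ^ 2) := by
    have : (a₃ ^ 2 - a₁ ^ 2) * T ^ 2
        = 2 * (a₃ * b₃) * T - 2 * (a₁ * b₁) * T + T * (a₂ - b₂) ^ 2 + (b₁ ^ 2 - b₃ ^ 2) := by
      linear_combination -hE
    rw [e1, e3] at this
    linarith
  rcases lt_trichotomy a₃ a₁ with h | h | h
  · have h5 : 0 < a₁ ^ 2 - a₃ ^ 2 := by nlinarith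
    have h6 : T ≤ a₁ ^ 2 - a₃ ^ 2 := Int.le_of_dvd h5 (by
      have : a₁ ^ 2 - a₃ ^ 2 = -(a₃ ^ 2 - a₁ ^ 2) := by ring
      rw [this, dvd_neg]
      exact hdvd)
    have h7 : T * T ^ 2 ≤ (a₁ ^ 2 - a₃ ^ 2) * T ^ 2 := mul_le_mul_of_nonneg_right h6 (sq_nonneg T)
    have h8 : 0 ≤ T * (a₂ - b₂) ^ 2 := by positivity
    nlinarith [sq_nonneg b₁]
  · subst h
    have h5 : b₁ = b₃ := by
      have : a₃ * b₁ = a₃ * b₃ := by rw [e1, e3]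
      exact mul_left_cancel₀ (by omega) this
    subst h5
    have h6 : T * (a₂ - b₂) ^ 2 = 0 := by linarith
    rcases mul_eq_zero.1 h6 with h7 | h7
    · omega
    · exact hne (by have := pow_eq_zero_iff (n := 2) (by norm_num) |>.1 h7; omega)
  · have h5 : 0 < a₃ ^ 2 - a₁ ^ 2 := by nlinarith
    have h6 : T ≤ a₃ ^ 2 - a₁ ^ 2 := Int.le_of_dvd h5 hdvd
    have h7 : T * T ^ 2 ≤ (a₃ ^ 2 - a₁ ^ 2) * T ^ 2 := mul_le_mul_of_nonneg_right h6 (sq_nonneg T)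
    have h8 : (M - 1) ^ 2 ≤ M ^ 2 := by nlinarith
    have h9 : T * (a₂ - b₂) ^ 2 ≤ T * M ^ 2 := mul_le_mul_of_nonneg_left (h4.trans h8) hT1.le
    nlinarith [sq_nonneg b₃]

/-- Integer form of one factorisation at a prime dividing `n` exactly once. -/
theorem one_form {n s t u p m v : ℕ} (hn : 0 < n) (hp : p.Prime) (hpn : n.factorization p = 1)
    (hm : n = m * p) (hst : s * t = n ^ 2) (hsu : s = t + 2 * u) (hv : s.factorization p = v)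
    (hle : v ≤ 2) (hu : 0 < u) :
    ∃ a b : ℤ, 1 ≤ a ∧ 1 ≤ b ∧ a * b = (m : ℤ) ^ 2 ∧
      ((v = 1 ∧ a ≠ b ∧ (2 * (u : ℤ)) ^ 2 = (p : ℤ) ^ 2 * (a - b) ^ 2) ∨
        (v ≠ 1 ∧ (2 * (u : ℤ)) ^ 2 = (a * (p : ℤ) ^ 2 - b) ^ 2)) := by
  have hm0 : 0 < m := by
    rcases Nat.eq_zero_or_pos m with rfl | h
    · omega
    · exact h
  obtain ⟨d, e, hde, hsd, hte⟩ := shape (k := p) (l := 1) (m := m) (a := v)
    hn hst (by rw [hm, mul_one]) hle hp.squarefree squarefree_one (Nat.coprime_one_right p)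
    (fun q hq hqp => by
      have : q = p := (Nat.prime_dvd_prime_iff_eq hq hp).1 hqp
      subst this
      exact ⟨hpn, hv⟩)
    (fun q hq hq1 => absurd (Nat.dvd_one.1 hq1) hq.one_lt.ne')
  have hd0 : 1 ≤ d := by
    rcases Nat.eq_zero_or_pos d with rfl | h
    · have : 0 < m ^ 2 := by positivity
      omega
    · exact h
  have he0 : 1 ≤ e := by
    rcases Nat.eq_zero_or_pos e with rfl | h
    · have : 0 < m ^ 2 := by positivity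
      omega
    · exact h
  have h2u : (2 * (u : ℤ)) = (s : ℤ) - t := by
    rw [hsu]; push_cast; ring
  have hde' : (d : ℤ) * e = (m : ℤ) ^ 2 := by exact_mod_cast hde
  have hd1 : (1 : ℤ) ≤ d := by exact_mod_cast hd0
  have he1 : (1 : ℤ) ≤ e := by exact_mod_cast he0
  simp only [one_pow, mul_one] at hsd hte
  have hs' : (s : ℤ) = d * (p : ℤ) ^ v := by rw [hsd]; push_cast; ring
  have ht' : (t : ℤ) = e * (p : ℤ) ^ (2 - v) := by rw [hte]; push_cast; ring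
  have h3 : v = 0 ∨ v = 1 ∨ v = 2 := by omega
  rcases h3 with rfl | rfl | rfl
  · refine ⟨e, d, he1, hd1, by rw [mul_comm]; exact hde', Or.inr ⟨by norm_num, ?_⟩⟩
    rw [h2u, hs', ht']
    simp only [pow_zero, tsub_zero]
    ring
  · refine ⟨d, e, hd1, he1, hde', Or.inl ⟨rfl, ?_, ?_⟩⟩
    · intro hne
      rw [hs', ht', hne] at h2u
      simp only [pow_one] at h2u
      have : (u : ℤ) = 0 := by
        have h5 : (2 - 1 : ℕ) = 1 := rfl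
        rw [h5, pow_one] at h2u
        linarith
      omega
    · rw [h2u, hs', ht']
      have h5 : (2 - 1 : ℕ) = 1 := rfl
      rw [h5, pow_one]
      ring
  · refine ⟨d, e, hd1, he1, hde', Or.inr ⟨by norm_num, ?_⟩⟩
    rw [h2u, hs', ht']
    simp only [tsub_self, pow_zero, mul_one]

theorem prime_sq_lt {n x y p m : ℕ} (h : PrimCuboid n x y) (hp : p.Prime)
    (hpn : n.factorization p = 1) (hm : n = m * p) : p ^ 2 < 2 * m ^ 2 := by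
  by_contra hc
  push Not at hc
  obtain ⟨s₁, t₁, s₂, t₂, s₃, t₃, z, hz0, hz2, ⟨hs₁, hx₁⟩, ⟨hs₂, hx₂⟩, ⟨hs₃, hx₃⟩, hV⟩ :=
    exists_factors h
  obtain ⟨hn, hx, hy, -⟩ := h
  have hv := hV p hp hpn
  simp only [V, Finset.mem_filter, Finset.mem_product, Finset.mem_range] at hv
  obtain ⟨⟨l1, l2, l3⟩, n12, n13, n23⟩ := hv
  have hm0 : 0 < m := by
    rcases Nat.eq_zero_or_pos m with rfl | h
    · omega
    · exact h
  have hpm : ¬ p ∣ m := by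
    rintro ⟨c, rfl⟩
    have : p ^ 2 ∣ n := ⟨c, by rw [hm]; ring⟩
    have := (hp.pow_dvd_iff_le_factorization hn.ne').1 this
    omega
  have hco : IsCoprime ((p : ℤ) ^ 2) ((m : ℤ) ^ 2) :=
    IsCoprime.pow (Nat.isCoprime_iff_coprime.2 ((hp.coprime_iff_not_dvd).2 hpm))
  obtain ⟨a₁, b₁, ha₁, hb₁, hab₁, hc₁⟩ := one_form hn hp hpn hm hs₁ hx₁ rfl (by omega) hx
  obtain ⟨a₂, b₂, ha₂, hb₂, hab₂, hc₂⟩ := one_form hn hp hpn hm hs₂ hx₂ rfl (by omega) hy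
  obtain ⟨a₃, b₃, ha₃, hb₃, hab₃, hc₃⟩ := one_form hn hp hpn hm hs₃ hx₃ rfl (by omega) hz0
  have hTM : 2 * (m : ℤ) ^ 2 ≤ (p : ℤ) ^ 2 := by exact_mod_cast hc
  have hz : (2 * (x : ℤ)) ^ 2 + (2 * (y : ℤ)) ^ 2 = (2 * (z : ℤ)) ^ 2 := by
    have : (z : ℤ) ^ 2 = (x : ℤ) ^ 2 + (y : ℤ) ^ 2 := by exact_mod_cast hz2
    linear_combination -4 * this
  rcases hc₁ with ⟨v1, ne1, f1⟩ | ⟨v1, f1⟩
  · rcases hc₂ with ⟨v2, ne2, f2⟩ | ⟨v2, f2⟩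
    · exact n12 ⟨v1, v2⟩
    · rcases hc₃ with ⟨v3, ne3, f3⟩ | ⟨v3, f3⟩
      · exact n13 ⟨v1, v3⟩
      · rw [f1, f2, f3] at hz
        exact case_two ha₂ hb₂ ha₁ hb₁ ha₃ hb₃ hab₂ hab₁ hab₃ hTM hco ne1
          (by linear_combination hz)
  · rcases hc₂ with ⟨v2, ne2, f2⟩ | ⟨v2, f2⟩
    · rcases hc₃ with ⟨v3, ne3, f3⟩ | ⟨v3, f3⟩
      · exact n23 ⟨v2, v3⟩
      · rw [f1, f2, f3] at hz
        exact case_two ha₁ hb₁ ha₂ hb₂ ha₃ hb₃ hab₁ hab₂ hab₃ hTM hco ne2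
          (by linear_combination hz)
    · rcases hc₃ with ⟨v3, ne3, f3⟩ | ⟨v3, f3⟩
      · rw [f1, f2, f3] at hz
        exact case_three ha₁ hb₁ ha₂ ha₃ hb₃ hab₁ hab₂ hab₃ hTM hco
          (by linear_combination hz)
      · rw [f1, f2, f3] at hz
        exact case_none ha₁ hb₁ ha₂ hb₂ ha₃ hb₃ hab₁ hab₂ hab₃ hTM
          (by linear_combination hz)

/-- Every prime factor `p` of an edge `n` of a primitive perfect cuboid satisfies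
`p ^ 4 < 2 n ^ 2`. -/
theorem prime_four_lt {n x y p : ℕ} (h : PrimCuboid n x y) (hp : p.Prime) (hpn : p ∣ n) :
    p ^ 4 < 2 * n ^ 2 := by
  have hn : 0 < n := h.1
  have h1 := (hp.dvd_iff_one_le_factorization hn.ne').1 hpn
  rcases Nat.lt_or_ge 1 (n.factorization p) with h2 | h2
  · have h3 : p ^ 2 ∣ n := (hp.pow_dvd_iff_le_factorization hn.ne').2 h2
    have h4 : p ^ 2 ≤ n := Nat.le_of_dvd hn h3
    have h5 : (p ^ 2) ^ 2 ≤ n ^ 2 := Nat.pow_le_pow_left h4 2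
    have h6 : 0 < n ^ 2 := by positivity
    calc p ^ 4 = (p ^ 2) ^ 2 := by ring
      _ ≤ n ^ 2 := h5
      _ < 2 * n ^ 2 := by omega
  · obtain ⟨m, hm⟩ := hpn
    have h3 : p ^ 2 < 2 * m ^ 2 := prime_sq_lt h hp (by omega) (by rw [hm, mul_comm])
    have hp0 : 0 < p ^ 2 := by have := hp.pos; positivity
    calc p ^ 4 = p ^ 2 * p ^ 2 := by ring
      _ < p ^ 2 * (2 * m ^ 2) := Nat.mul_lt_mul_of_pos_left h3 hp0
      _ = 2 * n ^ 2 := by rw [hm]; ring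

end Pool.Agent.CubS
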