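import Pool.Agent.CubS.Large

/-!
# Perfect cuboids from the system
-/

namespace Pool.Agent.CubS

theorem isSquare_div {G a : ℕ} (hG : 0 < G) (h : IsSquare (G ^ 2 * a)) : IsSquare a := by
  obtain ⟨r, hr⟩ := h
  have h1 : G ^ 2 ∣ r ^ 2 := ⟨a, by rw [pow_two r]; exact hr.symm⟩
  have h2 : G ∣ r := (Nat.pow_dvd_pow_iff two_ne_zero).1 h1
  obtain ⟨s, rfl⟩ := h2
  refine ⟨s, ?_⟩
  have h3 : G ^ 2 * a = G ^ 2 * (s * s) := by rw [hr]; ring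
  exact Nat.eq_of_mul_eq_mul_left (by positivity) h3

/-- The primitive perfect cuboid of a perfect cuboid. -/
theorem prim_of_cuboid {x y z G : ℕ} (hx : 0 < x) (hy : 0 < y) (hz : 0 < z)
    (h1 : IsSquare (x ^ 2 + y ^ 2)) (h2 : IsSquare (x ^ 2 + z ^ 2)) (h3 : IsSquare (y ^ 2 + z ^ 2))
    (h4 : IsSquare (x ^ 2 + y ^ 2 + z ^ 2)) (hG : G = Nat.gcd x (Nat.gcd y z)) :
    PrimCuboid (x / G) (y / G) (z / G) := by
  have hG0 : 0 < G := by rw [hG]; exact Nat.gcd_pos_of_pos_left _ hx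
  have dx : G ∣ x := by rw [hG]; exact Nat.gcd_dvd_left _ _
  have dy : G ∣ y := by
    rw [hG]; exact (Nat.gcd_dvd_right _ _).trans (Nat.gcd_dvd_left _ _)
  have dz : G ∣ z := by
    rw [hG]; exact (Nat.gcd_dvd_right _ _).trans (Nat.gcd_dvd_right _ _)
  obtain ⟨x', rfl⟩ := dx
  obtain ⟨y', rfl⟩ := dy
  obtain ⟨z', rfl⟩ := dz
  rw [Nat.mul_div_cancel_left _ hG0, Nat.mul_div_cancel_left _ hG0, Nat.mul_div_cancel_left _ hG0]
  have hg : Nat.gcd (Nat.gcd x' y') z' = 1 := by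
    rw [Nat.gcd_mul_left, Nat.gcd_mul_left] at hG
    have h5 : G * 1 = G * Nat.gcd x' (Nat.gcd y' z') := by rw [mul_one]; exact hG
    have h6 := Nat.eq_of_mul_eq_mul_left hG0 h5
    rw [Nat.gcd_assoc]
    exact h6.symm
  refine ⟨Nat.pos_of_mul_pos_left hx, Nat.pos_of_mul_pos_left hy, Nat.pos_of_mul_pos_left hz, hg,
    isSquare_div hG0 ?_, isSquare_div hG0 ?_, isSquare_div hG0 ?_, isSquare_div hG0 ?_⟩
  · convert h1 using 1; ring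
  · convert h2 using 1; ring
  · convert h3 using 1; ring
  · convert h4 using 1; ring

theorem PrimCuboid.swap {n x y : ℕ} (h : PrimCuboid n x y) : PrimCuboid x n y := by
  obtain ⟨h1, h2, h3, h4, h5, h6, h7, h8⟩ := h
  refine ⟨h2, h1, h3, by rw [Nat.gcd_comm x n]; exact h4, by rw [add_comm]; exact h5, h7, h6, ?_⟩
  rw [add_comm (x ^ 2)]
  exact h8

theorem PrimCuboid.rot {n x y : ℕ} (h : PrimCuboid n x y) : PrimCuboid y n x := by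
  obtain ⟨h1, h2, h3, h4, h5, h6, h7, h8⟩ := h
  refine ⟨h3, h1, h2, ?_, by rw [add_comm]; exact h6, by rw [add_comm]; exact h7, h5, ?_⟩
  · rw [Nat.gcd_assoc, Nat.gcd_comm]
    exact h4
  · convert h8 using 1
    ring

theorem system_prime (n b c e f g h k l : ℕ) (hn : 0 < n) (hb : 0 < b) (hc : 0 < c)
    (hg : 0 < g) (hh : 0 < h) (hk : 0 < k) (hl : 0 < l)
    (h1 : (n : ℤ) = (e : ℤ) ^ 2 - (f : ℤ) ^ 2)
    (h2 : (n : ℤ) = (b : ℤ) * ((g : ℤ) ^ 2 - (h : ℤ) ^ 2))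
    (h3 : (n : ℤ) = (c : ℤ) * ((k : ℤ) ^ 2 - (l : ℤ) ^ 2))
    (h4 : e ^ 2 * f ^ 2 = b ^ 2 * g ^ 2 * h ^ 2 + c ^ 2 * k ^ 2 * l ^ 2)
    (G : ℕ) (hG : G = Nat.gcd n (Nat.gcd (2 * b * g * h) (2 * c * k * l)))
    (E : ℕ) (hE : E = n ∨ E = 2 * b * g * h ∨ E = 2 * c * k * l)
    (p : ℕ) (hp : p.Prime) (hpE : p ∣ E / G) : p ^ 4 < 2 * (E / G) ^ 2 := by
  have h4' : (e : ℤ) ^ 2 * f ^ 2 = b ^ 2 * g ^ 2 * h ^ 2 + c ^ 2 * k ^ 2 * l ^ 2 := by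
    exact_mod_cast h4
  have H : PrimCuboid (n / G) (2 * b * g * h / G) (2 * c * k * l / G) := by
    refine prim_of_cuboid hn (by positivity) (by positivity)
      ⟨b * (g ^ 2 + h ^ 2), ?_⟩ ⟨c * (k ^ 2 + l ^ 2), ?_⟩ ⟨2 * e * f, ?_⟩ ⟨e ^ 2 + f ^ 2, ?_⟩ hG
    · have : (n : ℤ) ^ 2 + (2 * b * g * h) ^ 2 = b * (g ^ 2 + h ^ 2) * (b * (g ^ 2 + h ^ 2)) := by
        rw [h2]; ring
      exact_mod_cast this
    · have : (n : ℤ) ^ 2 + (2 * c * k * l) ^ 2 = c * (k ^ 2 + l ^ 2) * (c * (k ^ 2 + l ^ 2)) := by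
        rw [h3]; ring
      exact_mod_cast this
    · have : (2 * b * g * h : ℤ) ^ 2 + (2 * c * k * l) ^ 2 = 2 * e * f * (2 * e * f) := by
        linear_combination -4 * h4'
      exact_mod_cast this
    · have : (n : ℤ) ^ 2 + (2 * b * g * h : ℤ) ^ 2 + (2 * c * k * l) ^ 2
          = (e ^ 2 + f ^ 2) * (e ^ 2 + f ^ 2) := by
        rw [h1]; linear_combination -4 * h4'
      exact_mod_cast this
  rcases hE with rfl | rfl | rfl
  · exact prime_four_lt H hp hpE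
  · exact prime_four_lt H.swap hp hpE
  · exact prime_four_lt H.rot hp hpE

end Pool.Agent.CubS
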